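import Pool.Agent.Q222.CP.Core

/-!
# C-principality does not imply closure under `T` (MP_c9c291)

There is an `agsm⁻¹`-principal family which contains nonregular languages, is C-principal, and is
not closed under `T`.
-/

set_option autoImplicit false

namespace Pool.Agent.Results.MP_c9c291_lc.NotClosedUnderT

open Relation Q222.CP

/-- `w` is a word over the alphabet `X`. -/
def Over (X : Finset ℕ) (w : List ℕ) : Prop := ∀ a ∈ w, a ∈ X

/-! ### Operations -/

/-- An agsm with input alphabet `X`. -/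
structure Agsm where
  X : Finset ℕ
  Q : Type
  fin : Finite Q
  q₀ : Q
  F : Set Q
  t : Q → ℕ → Q
  h : Q → ℕ → List ℕ

/-- the extended output map `h(q, w)` -/
def outF {Q : Type} (t : Q → ℕ → Q) (h : Q → ℕ → List ℕ) : Q → List ℕ → List ℕ
  | _, [] => []
  | q, a :: w => h q a ++ outF t h (t q a) w

/-- `g⁻¹(M)`; the extended transition map is `List.foldl` -/
def Agsm.inv (g : Agsm) (M : Set (List ℕ)) : Set (List ℕ) :=
  {w | Over g.X w ∧ w.foldl g.t g.q₀ ∈ g.F ∧ outF g.t g.h g.q₀ w ∈ M}

/-- `L = g⁻¹(M)` for some agsm `g` -/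
def AgsmInv (M L : Set (List ℕ)) : Prop := ∃ g : Agsm, L = g.inv M

/-- `L` is an inverse homomorphic image of `M` -/
def InvHom (M L : Set (List ℕ)) : Prop :=
  ∃ (X : Finset ℕ) (f : ℕ → List ℕ), L = {w | Over X w ∧ w.flatMap f ∈ M}

/-- regular languages -/
def Regular (R : Set (List ℕ)) : Prop :=
  ∃ (X : Finset ℕ) (Q : Type) (_ : Finite Q) (δ : Q → ℕ → Q) (q₀ : Q) (F : Set Q),
    R = {w | Over X w ∧ w.foldl δ q₀ ∈ F}

/-- the operations of `C`: inverse homomorphism and intersection with a regular set -/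
def COp (M L : Set (List ℕ)) : Prop := InvHom M L ∨ ∃ R, Regular R ∧ L = M ∩ R

/-- `ℒ` is a family of languages over finite alphabets which is closed under the operations `E`,
and each language of `ℒ` is obtained from one language `L₀ ∈ ℒ` by finitely many operations. -/
def Principal (E : Set (List ℕ) → Set (List ℕ) → Prop) (ℒ : Set (Set (List ℕ))) : Prop :=
  (∀ L ∈ ℒ, ∃ X : Finset ℕ, ∀ w ∈ L, Over X w) ∧
  (∀ M ∈ ℒ, ∀ L, E M L → L ∈ ℒ) ∧ ∃ L₀ ∈ ℒ, ∀ L ∈ ℒ, ReflTransGen E L₀ L

/-! ### The transformation `T` -/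

/-- The words generated from `v₀, v₁, v₂, v₃` (first index) with `y`, `y'` (for `ȳ`) and `z`. -/
inductive V (X : Finset ℕ) (y y' z : ℕ) : ℕ → List ℕ → Prop
  | r01 {w : List ℕ} : V X y y' z 1 w → V X y y' z 0 w
  | r0e : V X y y' z 0 []
  | r12 {w : List ℕ} : V X y y' z 2 w → V X y y' z 1 (y :: (w ++ [y']))
  | r13 {w : List ℕ} : V X y y' z 3 w → V X y y' z 1 (w ++ [z])
  | r1z : V X y y' z 1 [z]
  | r22 {w : List ℕ} {x : ℕ} : V X y y' z 2 w → x ∈ X ∨ x = y → V X y y' z 2 (w ++ [x])
  | r21 {w : List ℕ} : V X y y' z 1 w → V X y y' z 2 w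
  | r33 {w : List ℕ} {x : ℕ} : V X y y' z 3 w → x ∈ X ∨ x = y ∨ x = y' → V X y y' z 3 (w ++ [x])
  | r3y : V X y y' z 3 [y']

/-- `B = y + (ȳ X* y⁺)*` -/
def B (X : Finset ℕ) (y y' : ℕ) (w : List ℕ) : Prop :=
  w = [y] ∨ ∃ l : List (List ℕ × ℕ), (∀ p ∈ l, Over X p.1) ∧
    w = l.flatMap fun p => y' :: (p.1 ++ List.replicate (p.2 + 1) y)

/-- `T(L)` for a language `L` over `X`: the words `z ȳ f₁ a₂ f₂ a₃ f₃ ⋯ a_n f_n b` with
`f₁ f₂ ⋯ f_n ∈ L`, `a_i ∈ A`, `b ∈ B`. -/
def T (X : Finset ℕ) (y y' z : ℕ) (L : Set (List ℕ)) : Set (List ℕ) :=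
  {w | ∃ (f : ℕ) (l : List (List ℕ × ℕ)) (b : List ℕ), f :: l.map Prod.snd ∈ L ∧
    (∀ p ∈ l, V X y y' z 0 p.1) ∧ B X y y' b ∧
    w = z :: y' :: f :: ((l.flatMap fun p => p.1 ++ [p.2]) ++ b)}

/-! ### Closure properties -/

theorem out_append {Q : Type} (t : Q → ℕ → Q) (h : Q → ℕ → List ℕ) (u v : List ℕ) : ∀ q,
    outF t h q (u ++ v) = outF t h q u ++ outF t h (u.foldl t q) v := by
  induction u with
  | nil => intro q; rfl
  | cons a u ih => intro q; simp only [List.cons_append, outF, List.foldl_cons]; rw [ih]; simp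

/-- transitions of the composition -/
def ct {Q₂ Q₁ : Type} (t₂ : Q₂ → ℕ → Q₂) (h₂ : Q₂ → ℕ → List ℕ) (X₁ : Finset ℕ)
    (t₁ : Q₁ → ℕ → Q₁) (s : Q₂ × Q₁ × Prop) (a : ℕ) : Q₂ × Q₁ × Prop :=
  (t₂ s.1 a, (h₂ s.1 a).foldl t₁ s.2.1, s.2.2 ∧ Over X₁ (h₂ s.1 a))

/-- outputs of the composition -/
def ch {Q₂ Q₁ : Type} (h₂ : Q₂ → ℕ → List ℕ) (t₁ : Q₁ → ℕ → Q₁) (h₁ : Q₁ → ℕ → List ℕ)
    (s : Q₂ × Q₁ × Prop) (a : ℕ) : List ℕ := outF t₁ h₁ s.2.1 (h₂ s.1 a)

theorem Over_append (X : Finset ℕ) (u v : List ℕ) : Over X (u ++ v) ↔ Over X u ∧ Over X v := by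
  simp only [Over, List.mem_append]
  constructor
  · exact fun h => ⟨fun a ha => h a (Or.inl ha), fun a ha => h a (Or.inr ha)⟩
  · rintro ⟨h1, h2⟩ a (ha | ha)
    · exact h1 a ha
    · exact h2 a ha

theorem compo_run {Q₂ Q₁ : Type} (t₂ : Q₂ → ℕ → Q₂) (h₂ : Q₂ → ℕ → List ℕ) (X₁ : Finset ℕ)
    (t₁ : Q₁ → ℕ → Q₁) (h₁ : Q₁ → ℕ → List ℕ) (w : List ℕ) : ∀ (q₂ : Q₂) (q₁ : Q₁) (P : Prop),
    w.foldl (ct t₂ h₂ X₁ t₁) (q₂, q₁, P) = (w.foldl t₂ q₂, (outF t₂ h₂ q₂ w).foldl t₁ q₁,
      (P ∧ Over X₁ (outF t₂ h₂ q₂ w))) ∧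
    outF (ct t₂ h₂ X₁ t₁) (ch h₂ t₁ h₁) (q₂, q₁, P) w = outF t₁ h₁ q₁ (outF t₂ h₂ q₂ w) := by
  induction w with
  | nil =>
    intro q₂ q₁ P
    simp [outF, Over]
  | cons a w ih =>
    intro q₂ q₁ P
    have h := ih (t₂ q₂ a) ((h₂ q₂ a).foldl t₁ q₁) (P ∧ Over X₁ (h₂ q₂ a))
    have e : ct t₂ h₂ X₁ t₁ (q₂, q₁, P) a = (t₂ q₂ a, (h₂ q₂ a).foldl t₁ q₁,
        (P ∧ Over X₁ (h₂ q₂ a))) := rfl
    constructor
    · rw [List.foldl_cons, e, h.1]
      simp only [outF, List.foldl_append, List.foldl_cons, Over_append, and_assoc]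
    · simp only [outF]
      rw [e, h.2, out_append]
      rfl

theorem agsm_trans {L M N : Set (List ℕ)} (h₁ : AgsmInv L M) (h₂ : AgsmInv M N) :
    AgsmInv L N := by
  obtain ⟨g₁, rfl⟩ := h₁
  obtain ⟨g₂, rfl⟩ := h₂
  have f₁ := g₁.fin
  have f₂ := g₂.fin
  refine ⟨⟨g₂.X, g₂.Q × g₁.Q × Prop, inferInstance, (g₂.q₀, g₁.q₀, True),
    {s | s.1 ∈ g₂.F ∧ s.2.1 ∈ g₁.F ∧ s.2.2}, ct g₂.t g₂.h g₁.X g₁.t, ch g₂.h g₁.t g₁.h⟩, ?_⟩
  ext w
  have h := compo_run g₂.t g₂.h g₁.X g₁.t g₁.h w g₂.q₀ g₁.q₀ True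
  constructor
  · rintro ⟨a1, a2, b1, b2, b3⟩
    refine ⟨a1, ?_, ?_⟩
    · change w.foldl (ct g₂.t g₂.h g₁.X g₁.t) (g₂.q₀, g₁.q₀, True) ∈ _
      rw [h.1]
      exact ⟨a2, b2, trivial, b1⟩
    · change outF (ct g₂.t g₂.h g₁.X g₁.t) (ch g₂.h g₁.t g₁.h) (g₂.q₀, g₁.q₀, True) w ∈ _
      rw [h.2]
      exact b3
  · rintro ⟨a1, a2, a3⟩
    change w.foldl (ct g₂.t g₂.h g₁.X g₁.t) (g₂.q₀, g₁.q₀, True) ∈ _ at a2
    change outF (ct g₂.t g₂.h g₁.X g₁.t) (ch g₂.h g₁.t g₁.h) (g₂.q₀, g₁.q₀, True) w ∈ _ at a3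
    rw [h.1] at a2
    rw [h.2] at a3
    exact ⟨a1, a2.1, a2.2.2.2, a2.2.1, a3⟩

theorem hom_agsm {M L : Set (List ℕ)} (h : InvHom M L) : AgsmInv M L := by
  obtain ⟨X, f, rfl⟩ := h
  refine ⟨⟨X, Unit, inferInstance, (), Set.univ, fun _ _ => (), fun _ a => f a⟩, ?_⟩
  have key : ∀ w : List ℕ, outF (fun (_ : Unit) _ => ()) (fun _ a => f a) () w = w.flatMap f := by
    intro w
    induction w with
    | nil => rfl
    | cons a w ih => simp only [outF, List.flatMap_cons]; rw [ih]
  ext w
  constructor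
  · rintro ⟨h1, h2⟩
    exact ⟨h1, trivial, by rw [key]; exact h2⟩
  · rintro ⟨h1, -, h2⟩
    exact ⟨h1, by rw [key] at h2; exact h2⟩

theorem out_id {Q : Type} (δ : Q → ℕ → Q) (w : List ℕ) : ∀ q : Q,
    outF δ (fun _ a => [a]) q w = w := by
  induction w with
  | nil => intro q; rfl
  | cons a w ih => intro q; simp only [outF]; rw [ih]; rfl

theorem reg_agsm {M L : Set (List ℕ)} (h : ∃ R, Regular R ∧ L = M ∩ R) : AgsmInv M L := by
  obtain ⟨R, ⟨X, Q, hQ, δ, q₀, F, rfl⟩, rfl⟩ := h
  refine ⟨⟨X, Q, hQ, q₀, F, δ, fun _ a => [a]⟩, ?_⟩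
  ext w
  constructor
  · rintro ⟨h1, h2, h3⟩
    exact ⟨h2, h3, by rw [out_id]; exact h1⟩
  · rintro ⟨h2, h3, h1⟩
    exact ⟨by rw [out_id] at h1; exact h1, h2, h3⟩

/-- the generator -/
def MS : Set (List ℕ) := {w | M0 w}

theorem agsm_refl : AgsmInv MS MS := by
  have h : ∀ w, M0 w → Over {0, 1, 2} w := by
    intro w hw
    cases hw with
    | nil => intro a ha; simp at ha
    | step ts s u _ _ =>
      intro a ha
      simp only [code, List.mem_flatMap, code1, List.mem_append, pre, List.mem_map,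
        List.mem_cons, List.not_mem_nil, or_false] at ha
      obtain ⟨t, -, ⟨k, -, rfl⟩ | rfl⟩ := ha
      · unfold Q222.CP.rw; split_ifs <;> simp
      · simp
  refine ⟨⟨{0, 1, 2}, Unit, inferInstance, (), Set.univ, fun _ _ => (), fun _ a => [a]⟩, ?_⟩
  ext w
  constructor
  · intro h1
    exact ⟨h w h1, trivial, by rw [out_id]; exact h1⟩
  · rintro ⟨-, -, h1⟩
    rw [out_id] at h1
    exact h1

/-! ### C-principality -/

/-- the table of a letter; state `0` stands for the initial state -/
def tab (g : Agsm) {k : ℕ} (e : g.Q ≃ Fin k) (x : ℕ) : Tab :=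
  ((e (g.t g.q₀ x) : ℕ) + 1, g.h g.q₀ x) ::
    List.ofFn fun i : Fin k => ((e (g.t (e.symm i) x) : ℕ) + 1, g.h (e.symm i) x)

theorem tab_get (g : Agsm) {k : ℕ} (e : g.Q ≃ Fin k) (x : ℕ) (q : g.Q) :
    (tab g e x)[(e q : ℕ) + 1]? = some ((e (g.t q x) : ℕ) + 1, g.h q x) := by
  unfold tab
  rw [List.getElem?_cons_succ, List.getElem?_ofFn, dif_pos (e q).2]
  simp

theorem run_tab' (g : Agsm) {k : ℕ} (e : g.Q ≃ Fin k) (w : List ℕ) : ∀ q : g.Q,
    run ((e q : ℕ) + 1) (w.map (tab g e)) = some ((e (w.foldl g.t q) : ℕ) + 1, outF g.t g.h q w) := by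
  induction w with
  | nil => intro q; rfl
  | cons x w ih =>
    intro q
    simp only [List.map_cons, run]
    rw [tab_get]
    simp only
    rw [ih]
    rfl

theorem run_tab (g : Agsm) {k : ℕ} (e : g.Q ≃ Fin k) (w : List ℕ) :
    ∃ s, run 0 (w.map (tab g e)) = some (s, outF g.t g.h g.q₀ w) := by
  cases w with
  | nil => exact ⟨0, rfl⟩
  | cons x w =>
    refine ⟨(e (w.foldl g.t (g.t g.q₀ x)) : ℕ) + 1, ?_⟩
    simp only [List.map_cons, run]
    have : (tab g e x)[0]? = some ((e (g.t g.q₀ x) : ℕ) + 1, g.h g.q₀ x) := rfl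
    rw [this]
    simp only
    rw [run_tab']
    rfl

theorem c_gen {L : Set (List ℕ)} (h : AgsmInv MS L) : ReflTransGen COp MS L := by
  obtain ⟨g, rfl⟩ := h
  have := g.fin
  obtain ⟨k, ⟨e⟩⟩ := Finite.exists_equiv_fin g.Q
  let f : ℕ → List ℕ := fun x => code1 (tab g e x)
  have key : ∀ w : List ℕ, M0 (w.flatMap f) ↔ M0 (outF g.t g.h g.q₀ w) := by
    intro w
    have e1 : w.flatMap f = code (w.map (tab g e)) := by
      simp only [code, List.flatMap_map, f]
    rw [e1, M0_code]
    obtain ⟨s, hs⟩ := run_tab g e w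
    rw [hs]
    constructor
    · rintro ⟨s', u, h1, h2⟩
      simp only [Option.some.injEq, Prod.mk.injEq] at h1
      rw [h1.2]
      exact h2
    · intro h2
      exact ⟨s, _, rfl, h2⟩
  refine ReflTransGen.head (b := {w | Over g.X w ∧ w.flatMap f ∈ MS})
    (Or.inl ⟨g.X, f, rfl⟩) (.single (Or.inr ⟨{w | Over g.X w ∧ w.foldl g.t g.q₀ ∈ g.F},
      ⟨g.X, g.Q, g.fin, g.t, g.q₀, g.F, rfl⟩, ?_⟩))
  ext w
  constructor
  · rintro ⟨h1, h2, h3⟩
    exact ⟨⟨h1, (key w).2 h3⟩, h1, h2⟩
  · rintro ⟨⟨h1, h3⟩, -, h2⟩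
    exact ⟨h1, h2, (key w).1 h3⟩

/-! ### `M0` is not regular -/

theorem run_sh (K : ℕ) (i : ℕ) : ∀ s, s + i ≤ K →
    run s (pw [(List.range K).map fun j => ((j + 1, []) : ℕ × List ℕ)] i) = some (s + i, []) := by
  induction i with
  | zero => intro s _; rfl
  | succ i ih =>
    intro s hs
    rw [pw_succ]
    simp only [List.cons_append, List.nil_append, run]
    have : ((List.range K).map fun j => ((j + 1, []) : ℕ × List ℕ))[s]? = some (s + 1, []) := by
      rw [List.getElem?_map, List.getElem?_range (by omega)]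
      rfl
    rw [this]
    simp only
    rw [ih (s + 1) (by omega)]
    simp only [Option.map_some, List.nil_append, Option.some.injEq, Prod.mk.injEq, and_true]
    omega

theorem not_M0_seven : ¬ M0 [7] := by
  intro h
  obtain ⟨ts, e, -⟩ := M0_iff.1 h
  have h7 : 7 ∈ code ts := by rw [← e]; simp
  simp only [code, List.mem_flatMap, code1, List.mem_append, pre, List.mem_map,
    List.mem_cons, List.not_mem_nil, or_false] at h7
  obtain ⟨t, -, ⟨k, -, h⟩ | h⟩ := h7
  · unfold Q222.CP.rw at h
    split_ifs at h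
    omega
  · omega

theorem not_regular : ¬ Regular MS := by
  rintro ⟨X, Q, hQ, δ, q₀, F, h⟩
  let K := Nat.card Q
  let a : Tab := (List.range K).map fun j => ((j + 1, []) : ℕ × List ℕ)
  let en : ℕ → Tab := fun j => (List.range (K + 1)).map fun i =>
    if i = j then ((0, []) : ℕ × List ℕ) else (0, [7])
  have hmem : ∀ i j, i ≤ K → (M0 (pw (code1 a) i ++ code1 (en j)) ↔ i = j) := by
    intro i j hi
    have e1 : pw (code1 a) i ++ code1 (en j) = code (pw [a] i ++ [en j]) := by
      rw [code_append, code_pw]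
      simp [code]
    have hr : run 0 (pw [a] i ++ [en j]) = some (0, if i = j then [] else [7]) := by
      rw [run_append, run_sh K i 0 (by omega)]
      simp only [run, zero_add]
      have : (en j)[i]? = some (if i = j then ((0, []) : ℕ × List ℕ) else (0, [7])) := by
        simp only [en]
        rw [List.getElem?_map, List.getElem?_range (by omega)]
        rfl
      rw [this]
      split_ifs <;> simp
    rw [e1, M0_code, hr]
    constructor
    · rintro ⟨s, u, h1, h2⟩
      by_contra hij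
      rw [if_neg hij] at h1
      simp only [Option.some.injEq, Prod.mk.injEq] at h1
      rw [← h1.2] at h2
      exact not_M0_seven h2
    · intro hij
      exact ⟨0, [], by rw [if_pos hij], .nil⟩
  obtain ⟨i, j, hij, he⟩ : ∃ i j : Fin (K + 1), i ≠ j ∧
      (pw (code1 a) i).foldl δ q₀ = (pw (code1 a) j).foldl δ q₀ := by
    by_contra hne
    push Not at hne
    have hinj : Function.Injective fun i : Fin (K + 1) => (pw (code1 a) i).foldl δ q₀ := by
      intro i j hij
      by_contra h1
      exact hne i j h1 hij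
    have := Nat.card_le_card_of_injective _ hinj
    rw [Nat.card_eq_fintype_card, Fintype.card_fin] at this
    simp only [K] at this
    omega
  have hiK : (i : ℕ) ≤ K := by omega
  have hjK : (j : ℕ) ≤ K := by omega
  have h1 : pw (code1 a) i ++ code1 (en i) ∈ MS := (hmem i i hiK).2 rfl
  have h1j : pw (code1 a) j ++ code1 (en j) ∈ MS := (hmem j j hjK).2 rfl
  have h2 : pw (code1 a) j ++ code1 (en i) ∉ MS := fun hh =>
    hij (Fin.ext ((hmem j i hjK).1 hh).symm)
  rw [h] at h1 h2 h1j
  apply h2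
  refine ⟨?_, ?_⟩
  · intro c hc
    rcases List.mem_append.1 hc with hc | hc
    · exact h1j.1 c (List.mem_append.2 (Or.inl hc))
    · exact h1.1 c (List.mem_append.2 (Or.inr hc))
  · have := h1.2
    rw [List.foldl_append, he, ← List.foldl_append] at this
    exact this

/-! ### The transformation -/

theorem V_shape (X : Finset ℕ) (y y' z : ℕ) (hy' : y' ∉ X) (hz : z ∉ X) (h1 : y ≠ y')
    (h2 : y ≠ z) (h3 : y' ≠ z) (n : ℕ) : ∀ k,
    V X y y' z 1 (List.replicate n y ++ z :: List.replicate k y') → n = k := by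
  have h33 : ∀ i w, V X y y' z i w → i = 3 → y' ∈ w := by
    intro i w h
    induction h with
    | r33 _ _ ih => intro _; exact List.mem_append.2 (Or.inl (ih rfl))
    | r3y => intro _; simp
    | _ => intro h; omega
  have hlast : ∀ (u v : List ℕ) (a b : ℕ), u ++ [a] = v ++ [b] → u = v ∧ a = b := by
    intro u v a b h
    obtain ⟨h1, h2⟩ := List.append_inj' h rfl
    exact ⟨h1, by simpa using h2⟩
  induction n with
  | zero =>
    intro k h
    simp only [List.replicate_zero, List.nil_append] at h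
    generalize hw : z :: List.replicate k y' = w at h
    cases h with
    | @r12 v _ =>
      simp only [List.cons.injEq] at hw
      exact (h2 hw.1.symm).elim
    | @r13 v hv =>
      have h4 := h33 3 v hv rfl
      cases k with
      | zero =>
        simp only [List.replicate_zero] at hw
        have h5 : v = [] := by
          cases v with
          | nil => rfl
          | cons c v => simp at hw
        simp [h5] at h4
      | succ k =>
        rw [List.replicate_succ', ← List.cons_append] at hw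
        exact (h3 (hlast _ _ _ _ hw).2).elim
    | r1z =>
      cases k with
      | zero => rfl
      | succ k => simp [List.replicate_succ] at hw
  | succ n ih =>
    intro k h
    generalize hw : List.replicate (n + 1) y ++ z :: List.replicate k y' = w at h
    cases h with
    | @r12 v hv =>
      rw [List.replicate_succ, List.cons_append, List.cons.injEq] at hw
      cases k with
      | zero =>
        simp only [List.replicate_zero] at hw
        exact (h3 (hlast _ _ _ _ hw.2).2.symm).elim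
      | succ k =>
        rw [List.replicate_succ', ← List.cons_append, ← List.append_assoc] at hw
        have h4 := (hlast _ _ _ _ hw.2).1
        have h5 : V X y y' z 1 v := by
          generalize hi : 2 = i at hv
          cases hv with
          | @r22 v' x hv' hx =>
            exfalso
            cases k with
            | zero =>
              simp only [List.replicate_zero] at h4
              have h6 := (hlast _ _ _ _ h4).2
              rcases hx with hx | hx
              · exact hz (h6 ▸ hx)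
              · exact h2 (by rw [h6, hx])
            | succ k =>
              rw [List.replicate_succ', ← List.cons_append, ← List.append_assoc] at h4
              have h6 := (hlast _ _ _ _ h4).2
              rcases hx with hx | hx
              · exact hy' (h6 ▸ hx)
              · exact h1 (by rw [h6, hx])
          | r21 hv' => exact hv'
          | _ => omega
        rw [← h4] at h5
        rw [ih k h5]
    | @r13 v hv =>
      have h4 := h33 3 v hv rfl
      cases k with
      | zero =>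
        simp only [List.replicate_zero] at hw
        have h5 := (hlast _ _ _ _ hw).1
        rw [← h5] at h4
        simp only [List.mem_replicate] at h4
        exact (h1 h4.2.symm).elim
      | succ k =>
        rw [List.replicate_succ' (a := y'), ← List.cons_append, ← List.append_assoc] at hw
        exact (h3 (hlast _ _ _ _ hw).2).elim
    | r1z => simp [List.replicate_succ] at hw

theorem V_mem (X : Finset ℕ) (y y' z : ℕ) (n : ℕ) :
    V X y y' z 1 (List.replicate n y ++ z :: List.replicate n y') := by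
  induction n with
  | zero => exact .r1z
  | succ n ih =>
    have h := V.r12 (.r21 ih)
    have e : y :: ((List.replicate n y ++ z :: List.replicate n y') ++ [y']) =
        List.replicate (n + 1) y ++ z :: List.replicate (n + 1) y' := by
      rw [List.replicate_succ, List.replicate_succ' (a := y')]
      simp
    rwa [e] at h

/-- the test words -/
def tw (y y' z n k : ℕ) : List ℕ :=
  z :: y' :: 0 :: (List.replicate n y ++ (z :: (List.replicate k y' ++ [0])))

theorem tw_mem (X : Finset ℕ) (y y' z : ℕ) (hX : 0 ∈ X) (hy : y ∉ X) (hy' : y' ∉ X) (hz : z ∉ X)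
    (h1 : y ≠ y') (h2 : y ≠ z) (h3 : y' ≠ z) (n k : ℕ) :
    tw y y' z n k ∈ T X y y' z {[0, 0]} ↔ n = k := by
  have hy0 : (0 : ℕ) ≠ y := fun h => hy (h ▸ hX)
  have hy0' : (0 : ℕ) ≠ y' := fun h => hy' (h ▸ hX)
  have hz0 : (0 : ℕ) ≠ z := fun h => hz (h ▸ hX)
  constructor
  · rintro ⟨f, l, b, hf, hl, hb, e⟩
    simp only [Set.mem_singleton_iff, List.cons.injEq] at hf
    obtain ⟨rfl, hf⟩ := hf
    obtain ⟨⟨a, c⟩, rfl⟩ : ∃ p, l = [p] := by
      cases l with
      | nil => simp at hf
      | cons p l =>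
        cases l with
        | nil => exact ⟨p, rfl⟩
        | cons q l => simp at hf
    simp only [List.map_cons, List.map_nil, List.cons.injEq, and_true] at hf
    subst hf
    simp only [tw, List.flatMap_cons, List.flatMap_nil, List.append_nil, List.cons.injEq,
      true_and] at e
    have hn : (0 : ℕ) ∉ List.replicate n y ++ z :: List.replicate k y' := by
      simp only [List.mem_append, List.mem_replicate, List.mem_cons]
      rintro (⟨-, h⟩ | h | ⟨-, h⟩)
      · exact hy0 h
      · exact hz0 h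
      · exact hy0' h
    have e' : (List.replicate n y ++ z :: List.replicate k y') ++ [0] = a ++ 0 :: b := by
      rw [List.append_assoc] at e ⊢
      simpa using e
    have ha : a = List.replicate n y ++ z :: List.replicate k y' := by
      rcases List.append_eq_append_iff.1 e' with ⟨c, h4, h5⟩ | ⟨c, h4, h5⟩
      · cases c with
        | nil => simpa using h4
        | cons d c =>
          simp only [List.cons_append, List.cons.injEq] at h5
          have := congrArg List.length h5.2
          simp at this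
      · cases c with
        | nil => simpa using h4.symm
        | cons d c =>
          simp only [List.cons_append, List.cons.injEq] at h5
          exact (hn (by rw [h4, ← h5.1]; simp)).elim
    have h4 := hl (a, 0) (by simp)
    simp only at h4
    rw [ha] at h4
    generalize hw : List.replicate n y ++ z :: List.replicate k y' = w at h4
    generalize hi : 0 = i at h4
    cases h4 with
    | r01 h5 =>
      rw [← hw] at h5
      exact V_shape X y y' z hy' hz h1 h2 h3 n k h5
    | r0e => simp at hw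
    | _ => omega
  · rintro rfl
    refine ⟨0, [(List.replicate n y ++ z :: List.replicate n y', 0)], [], by simp, ?_,
      Or.inr ⟨[], by simp, by simp⟩, ?_⟩
    · intro p hp
      simp only [List.mem_cons, List.not_mem_nil, or_false] at hp
      rw [hp]
      exact .r01 (V_mem X y y' z n)
    · simp [tw]

theorem not_T (X : Finset ℕ) (y y' z : ℕ) (hX : 0 ∈ X) (hy : y ∉ X) (hy' : y' ∉ X) (hz : z ∉ X)
    (h1 : y ≠ y') (h2 : y ≠ z) (h3 : y' ≠ z) :
    ¬ AgsmInv MS (T X y y' z {[0, 0]}) := by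
  rintro ⟨g, hg⟩
  have := g.fin
  have hmem : ∀ n k, tw y y' z n k ∈ g.inv MS ↔ n = k := by
    intro n k
    rw [← hg]
    exact tw_mem X y y' z hX hy hy' hz h1 h2 h3 n k
  -- ultimately periodic states
  let P : List ℕ := [z, y', 0]
  let st : ℕ → g.Q := fun i => (P ++ List.replicate i y).foldl g.t g.q₀
  obtain ⟨N, N', hNN, hst⟩ : ∃ N N', N < N' ∧ st N = st N' := by
    obtain ⟨i, j, hij, h⟩ := Finite.exists_ne_map_eq_of_infinite st
    rcases Nat.lt_or_ge i j with h' | h'
    · exact ⟨i, j, h', h⟩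
    · exact ⟨j, i, by omega, h.symm⟩
  obtain ⟨m, rfl⟩ := Nat.exists_eq_add_of_lt hNN
  have hper : ∀ j, st (N + (m + 1) * j) = st N := by
    intro j
    induction j with
    | zero => simp
    | succ j ih =>
      have e1 : N + (m + 1) * (j + 1) = (N + (m + 1) * j) + (m + 1) := by ring
      simp only [st] at ih hst ⊢
      rw [e1, List.replicate_add, ← List.append_assoc, List.foldl_append, ih]
      have e2 : N + m + 1 = N + (m + 1) := by ring
      rw [e2, List.replicate_add, ← List.append_assoc,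
        List.foldl_append (l' := List.replicate (m + 1) y)] at hst
      exact hst.symm
  let β := outF g.t g.h g.q₀ (P ++ List.replicate N y)
  let γ := outF g.t g.h (st N) (List.replicate (m + 1) y)
  have hout : ∀ j, outF g.t g.h g.q₀ (P ++ List.replicate (N + (m + 1) * j) y) = β ++ pw γ j := by
    intro j
    induction j with
    | zero => simp [β]
    | succ j ih =>
      have e1 : N + (m + 1) * (j + 1) = (N + (m + 1) * j) + (m + 1) := by ring
      rw [e1, List.replicate_add, ← List.append_assoc, out_append, ih, pw_succ', ← List.append_assoc]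
      have := hper j
      simp only [st] at this
      rw [this]
  obtain ⟨j, j', hjj, he⟩ := rep_all β γ
  have hlt : N + (m + 1) * j < N + (m + 1) * j' := by
    have := Nat.mul_lt_mul_of_pos_left hjj (Nat.succ_pos m)
    simp only [Nat.succ_eq_add_one] at this
    omega
  have hmj := (hmem (N + (m + 1) * j) (N + (m + 1) * j)).2 rfl
  have hmj' := (hmem (N + (m + 1) * j') (N + (m + 1) * j')).2 rfl
  have key : tw y y' z (N + (m + 1) * j') (N + (m + 1) * j) ∈ g.inv MS := by
    have esp : ∀ n k, tw y y' z n k = (P ++ List.replicate n y) ++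
        (z :: (List.replicate k y' ++ [0])) := by
      intro n k; simp [tw, P]
    obtain ⟨o1, o2, o3⟩ := hmj
    obtain ⟨p1, -, -⟩ := hmj'
    rw [esp] at o1 o2 o3 p1 ⊢
    have hj := hper j
    have hj' := hper j'
    simp only [st] at hj hj'
    refine ⟨?_, ?_, ?_⟩
    · rw [Over_append] at o1 p1 ⊢
      exact ⟨p1.1, o1.2⟩
    · rw [List.foldl_append, hj'] 
      rw [List.foldl_append, hj] at o2
      exact o2
    · rw [out_append, hout, hj']
      rw [out_append, hout, hj] at o3
      exact (he _).1 o3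
  have := (hmem _ _).1 key
  omega

/-- There is a family `ℒ` which is `{agsm⁻¹}`-principal and C-principal, contains a nonregular
language, and is not closed under `T`: it contains the language `{00}`, but for every alphabet `X`
with `0 ∈ X` and all new letters `y, ȳ, z` it does not contain `T({00})`. -/
theorem result : ∃ ℒ : Set (Set (List ℕ)), Principal AgsmInv ℒ ∧ Principal COp ℒ ∧
    (∃ L ∈ ℒ, ¬ Regular L) ∧
    ({[0, 0]} : Set (List ℕ)) ∈ ℒ ∧
    ∀ (X : Finset ℕ) (y y' z : ℕ), 0 ∈ X → y ∉ X → y' ∉ X → z ∉ X → y ≠ y' → y ≠ z → y' ≠ z →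
      T X y y' z {[0, 0]} ∉ ℒ := by
  have hfin : ∀ L, AgsmInv MS L → ∃ X : Finset ℕ, ∀ w ∈ L, Over X w := by
    rintro L ⟨g, rfl⟩
    exact ⟨g.X, fun w hw => hw.1⟩
  refine ⟨{L | AgsmInv MS L}, ⟨hfin, ?_, MS, agsm_refl, ?_⟩,
    ⟨hfin, ?_, MS, agsm_refl, fun L hL => c_gen hL⟩, ⟨MS, agsm_refl, not_regular⟩, ?_, ?_⟩
  · exact fun M hM L hL => agsm_trans hM hL
  · exact fun L hL => .single hL
  · rintro M hM L (hL | hL)
    · exact agsm_trans hM (hom_agsm hL)
    · exact agsm_trans hM (reg_agsm hL)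
  · -- {00}
    refine ⟨⟨{0}, Fin 4, inferInstance, 0, {2}, fun q _ => if q = 3 then 3 else q + 1,
      fun _ _ => []⟩, ?_⟩
    have hout : ∀ (w : List ℕ) (q : Fin 4), outF
        (fun (q : Fin 4) _ => if q = 3 then 3 else q + 1) (fun _ _ => []) q w = [] := by
      intro w
      induction w with
      | nil => intro q; rfl
      | cons a w ih => intro q; simp only [outF]; rw [ih]; rfl
    ext w
    constructor
    · rintro rfl
      refine ⟨by simp [Over], by decide, by rw [hout]; exact .nil⟩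
    · rintro ⟨h1, h2, -⟩
      have h3 : ∀ v : List ℕ, v.foldl (fun (q : Fin 4) (_ : ℕ) => if q = 3 then 3 else q + 1) 3 = 3 := by
        intro v
        induction v with
        | nil => rfl
        | cons a v ih => exact ih
      rcases w with _ | ⟨a, _ | ⟨b, _ | ⟨c, w⟩⟩⟩
      · simp at h2
      · have h5 : ([a] : List ℕ).foldl
          (fun (q : Fin 4) (_ : ℕ) => if q = 3 then 3 else q + 1) 0 = 1 := rfl
        rw [h5] at h2
        exact absurd h2 (by decide)
      · have ha := h1 a (by simp)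
        have hb := h1 b (by simp)
        simp only [Finset.mem_singleton] at ha hb
        rw [ha, hb]
        rfl
      · exfalso
        have h4 : (c :: w).foldl (fun (q : Fin 4) (_ : ℕ) => if q = 3 then 3 else q + 1) 2 = 3 :=
          h3 w
        have h5 : (a :: b :: c :: w).foldl
          (fun (q : Fin 4) (_ : ℕ) => if q = 3 then 3 else q + 1) 0 = 3 := h4
        rw [h5] at h2
        exact absurd h2 (by decide)
  · intro X y y' z hX hy hy' hz h1 h2 h3
    exact not_T X y y' z hX hy hy' hz h1 h2 h3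

end Pool.Agent.Results.MP_c9c291_lc.NotClosedUnderT
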